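import Pool.Agent.Helper16.Cusp.Main

/-!
MP_c70db9_ag: for every k ≥ 3 there is a reduced plane curve of degree d = 4·3^k with at least
(193/648)·d² − d/4 ordinary cusps; so limsup k_max(d)/d² ≥ 193/648 = 0.29783...
-/

namespace Pool.Agent.Results.MP_c70db9_ag.CuspTower

open Pool.Agent.Helper16.Cusp

/-- For every `k ≥ 3` there is a homogeneous square-free polynomial `F` of degree `d = 4·3^k` in three
variables over `ℂ` whose curve has at least `(193/648) d² - 3^k` ordinary cusps. -/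
theorem result (k : ℕ) (hk : 3 ≤ k) :
    ∃ F : MvPolynomial (Fin 3) ℂ, F.IsHomogeneous (4 * 3 ^ k) ∧ Squarefree F ∧
      ∃ S : Finset (Projectivization ℂ (Fin 3 → ℂ)), (∀ p ∈ S, IsOrdinaryCusp F p) ∧
        (S.card : ℝ) = 193 / 648 * (4 * 3 ^ k : ℝ) ^ 2 - 3 ^ k :=
  Pool.Agent.Helper16.Cusp.main k hk

end Pool.Agent.Results.MP_c70db9_ag.CuspTower
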